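import Pool.Agent.Helper12.NK.St

/-! # Project NK, module FAC: peripheral cycles of a 3-connected plane graph are faces -/

set_option autoImplicit false

namespace Pool.Agent.Helper86.NK

open Pool.Agent.Helper12.NK
open Pool.Agent.Helper51.AJ (IsMinor Planar Con Tch con_union con_singleton con_nonempty tch_mono tch_symm)
open Pool.Agent.Helper35.PM (Rot)

variable {V : Type}

private theorem cast_ne_FAC {m a : ℕ} (h0 : 0 < a) (h : a < m) : ((a : ℕ) : ZMod m) ≠ 0 := by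
  intro he
  rw [ZMod.natCast_eq_zero_iff] at he
  exact absurd (Nat.le_of_dvd h0 he) (by omega)

private theorem one_ne_FAC {m : ℕ} (hm : 3 ≤ m) : (1 : ZMod m) ≠ 0 := by
  have := cast_ne_FAC (m := m) (a := 1) (by omega) (by omega)
  simpa using this

private theorem two_ne_FAC {m : ℕ} (hm : 3 ≤ m) : (2 : ZMod m) ≠ 0 := by
  have := cast_ne_FAC (m := m) (a := 2) (by omega) (by omega)
  simpa using this

/-- an induced cycle inside an induced cycle is the whole cycle -/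
private theorem range_eq_FAC {G : SimpleGraph V} {U : Set V} {m m' : ℕ} {c : ZMod m → V} {c' : ZMod m' → V}
    (h : Pcy G U m c) (h' : Pcy G U m' c') (hs : Set.range c' ⊆ Set.range c) :
    Set.range c' = Set.range c := by
  obtain ⟨hm, hinj, -, hadj, -⟩ := h
  obtain ⟨hm', hinj', -, hadj', -⟩ := h'
  have : NeZero m := ⟨by omega⟩
  refine hs.antisymm ?_
  have step : ∀ i, c i ∈ Set.range c' → c (i + 1) ∈ Set.range c' := by
    rintro i ⟨j, hj⟩
    obtain ⟨a, ha⟩ := hs ⟨j + 1, rfl⟩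
    obtain ⟨b, hb⟩ := hs ⟨j - 1, rfl⟩
    have hab : a ≠ b := by
      rintro rfl
      have h1 : j + 1 = j - 1 := hinj' (ha.symm.trans hb)
      have h2 : (2 : ZMod m') = 0 := by linear_combination h1
      exact two_ne_FAC hm' h2
    have h1 : G.Adj (c i) (c a) := by
      rw [← hj, ha]
      exact (hadj' _ _).2 (Or.inl rfl)
    have h2 : G.Adj (c i) (c b) := by
      rw [← hj, hb]
      exact (hadj' _ _).2 (Or.inr (by ring))
    rcases (hadj i a).1 h1 with h3 | h3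
    · exact ⟨j + 1, by rw [← ha, h3]⟩
    rcases (hadj i b).1 h2 with h4 | h4
    · exact ⟨j - 1, by rw [← hb, h4]⟩
    exact absurd (add_right_cancel (h3.symm.trans h4)) hab
  obtain ⟨i₀, hi₀⟩ := hs ⟨0, rfl⟩
  have all : ∀ n : ℕ, c (i₀ + (n : ZMod m)) ∈ Set.range c' := by
    intro n
    induction n with
    | zero => exact ⟨0, by simp [hi₀]⟩
    | succ n ih =>
      have := step _ ih
      rw [Nat.cast_succ, ← add_assoc]
      exact this
  rintro _ ⟨i, rfl⟩
  have := all (i - i₀).val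
  rwa [ZMod.natCast_zmod_val, add_sub_cancel] at this

/-- every vertex of a peripheral cycle has a neighbour outside -/
private theorem nbr_FAC [Finite V] {G : SimpleGraph V} {U : Set V} {m : ℕ} {c : ZMod m → V}
    (h : Pcy G U m c) (i : ZMod m) (h3 : 3 ≤ {b | b ∈ U ∧ G.Adj (c i) b}.ncard) :
    ∃ x ∈ U \ Set.range c, G.Adj (c i) x := by
  obtain ⟨hm, hinj, -, hadj, -⟩ := h
  by_contra hno
  push Not at hno
  have hsub : {b | b ∈ U ∧ G.Adj (c i) b} ⊆ {c (i + 1), c (i - 1)} := by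
    rintro b ⟨hb, hab⟩
    have hbc : b ∈ Set.range c := by
      by_contra hbc
      exact hno b ⟨hb, hbc⟩ hab
    obtain ⟨j, rfl⟩ := hbc
    rcases (hadj i j).1 hab with h1 | h1
    · exact Or.inl (by rw [h1])
    · refine Or.inr ?_
      rw [Set.mem_singleton_iff, h1, add_sub_cancel_right]
  have h1 := Set.ncard_le_ncard hsub (Set.toFinite _)
  have h2 := Set.ncard_insert_le (c (i + 1)) {c (i - 1)}
  rw [Set.ncard_singleton] at h2
  omega

private theorem con_image_FAC {α β : Type} {H : SimpleGraph α} {K : SimpleGraph β} (f : α → β)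
    (hf : ∀ a b, H.Adj a b → K.Adj (f a) (f b)) {S : Set α} (h : Con H S) : Con K (f '' S) := by
  let g : H.induce S →g K.induce (f '' S) :=
    { toFun := fun x => ⟨f x.1, x.1, x.2, rfl⟩
      map_rel' := fun {a b} hab => hf a.1 b.1 hab }
  refine SimpleGraph.Connected.map g ?_ h
  rintro ⟨_, x, hx, rfl⟩
  exact ⟨⟨x, hx⟩, rfl⟩

/-- the open arc -/
private theorem arc_FAC {H : SimpleGraph V} {m : ℕ} {c : ZMod m → V}
    (hadj : ∀ i, H.Adj (c i) (c (i + 1))) (n : ℕ) :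
    Con H {x | ∃ t : ℕ, 2 ≤ t ∧ t ≤ n + 2 ∧ c (t : ZMod m) = x} := by
  induction n with
  | zero =>
    have : {x | ∃ t : ℕ, 2 ≤ t ∧ t ≤ 0 + 2 ∧ c (t : ZMod m) = x} = {c ((2 : ℕ) : ZMod m)} := by
      ext x
      constructor
      · rintro ⟨t, h1, h2, h3⟩
        have : t = 2 := by omega
        subst this
        exact h3.symm
      · rintro rfl
        exact ⟨2, le_refl _, by omega, rfl⟩
    rw [this]
    exact con_singleton _ _
  | succ n ih =>
    have : {x | ∃ t : ℕ, 2 ≤ t ∧ t ≤ n + 1 + 2 ∧ c (t : ZMod m) = x} =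
        {x | ∃ t : ℕ, 2 ≤ t ∧ t ≤ n + 2 ∧ c (t : ZMod m) = x} ∪ {c ((n + 3 : ℕ) : ZMod m)} := by
      ext x
      constructor
      · rintro ⟨t, h1, h2, h3⟩
        rcases Nat.lt_or_ge t (n + 3) with h4 | h4
        · exact Or.inl ⟨t, h1, by omega, h3⟩
        · have : t = n + 3 := by omega
          subst this
          exact Or.inr h3.symm
      · rintro (⟨t, h1, h2, h3⟩ | h)
        · exact ⟨t, h1, by omega, h3⟩
        · exact ⟨n + 3, by omega, by omega, h.symm⟩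
    rw [this]
    refine con_union ih (con_singleton _ _) ?_
    refine ⟨c ((n + 2 : ℕ) : ZMod m), ⟨n + 2, by omega, le_refl _, rfl⟩, _, rfl, ?_⟩
    have := hadj ((n + 2 : ℕ) : ZMod m)
    rwa [show ((n + 2 : ℕ) : ZMod m) + 1 = ((n + 3 : ℕ) : ZMod m) by push_cast; ring] at this

private theorem fin3_FAC {P : Fin 3 → Prop} (h0 : P 0) (h1 : P 1) (h2 : P 2) : ∀ i, P i := by
  intro i
  fin_cases i
  · exact h0
  · exact h1
  · exact h2

private theorem dis3_FAC {α : Type} {A : Fin 3 → Set α} (h01 : Disjoint (A 0) (A 1)) (h02 : Disjoint (A 0) (A 2))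
    (h12 : Disjoint (A 1) (A 2)) : ∀ i j, i ≠ j → Disjoint (A i) (A j) := by
  intro i j hij
  fin_cases i <;> fin_cases j
  · exact absurd rfl hij
  · exact h01
  · exact h02
  · exact h01.symm
  · exact absurd rfl hij
  · exact h12
  · exact h02.symm
  · exact h12.symm
  · exact absurd rfl hij

theorem hFAC : StKCA → StMNR → StPLU → StRPW → StFCY → StPER → StFAC := by
  intro hKCA hMNR hPLU hRPW hFCY hPER V _ G U R hk F hF
  classical
  obtain ⟨m, c, hc, rfl⟩ := hF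
  have hc' := hc
  obtain ⟨hm, hinj, hsub, hadj, hcon⟩ := hc'
  have : NeZero m := ⟨by omega⟩
  have hk2 : Kc 2 G U := (hKCA V G U).1 2 hk
  have hdeg := (hKCA V G U).2.2.1 3 hk
  have hcr := (hKCA V G U).2.2.2.1
  have hU : ∀ i, c i ∈ U := fun i => hsub ⟨i, rfl⟩
  have hne1 := one_ne_FAC hm
  have hne2 := two_ne_FAC hm
  have hcadj : ∀ i, (rst G U).Adj (c i) (c (i + 1)) := fun i =>
    ⟨(hadj i (i + 1)).2 (Or.inl rfl), hU _, hU _⟩
  have h01 : (rst G U).Adj (c 0) (c 1) := by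
    have := hcadj 0
    rwa [zero_add] at this
  let d : (rst G U).Dart := ⟨(c 0, c 1), h01⟩
  obtain ⟨⟨m₁, c₁, f₁, r₁, e₁⟩, hns⟩ := hFCY V G U R hk2 d
  obtain ⟨⟨m₂, c₂, f₂, r₂, e₂⟩, -⟩ := hFCY V G U R hk2 d.symm
  have p₁ := hPER V G U R hk m₁ c₁ f₁
  have p₂ := hPER V G U R hk m₂ c₂ f₂
  by_cases s₁ : Set.range c₁ ⊆ Set.range c
  · exact ⟨d, by rw [← r₁]; exact range_eq_FAC hc p₁ s₁⟩
  by_cases s₂ : Set.range c₂ ⊆ Set.range c
  · exact ⟨d.symm, by rw [← r₂]; exact range_eq_FAC hc p₂ s₂⟩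
  exfalso
  obtain ⟨x₁, hx₁, hx₁c⟩ := Set.not_subset.1 s₁
  obtain ⟨x₂, hx₂, hx₂c⟩ := Set.not_subset.1 s₂
  have hx₁U : x₁ ∈ U := p₁.2.2.1 hx₁
  have hx₂U : x₂ ∈ U := p₂.2.2.1 hx₂
  have hfin : Finite (rst G U).Dart :=
    Finite.of_injective (fun e : (rst G U).Dart => e.toProd) (fun a b h => SimpleGraph.Dart.ext _ _ h)
  have hpl : Planar (rplus R) := hRPW _ _ (hPLU V (rst G U) R)
  let q : (rst G U).Dart → Quotient (Equiv.Perm.SameCycle.setoid R.φ) := fun e => Quotient.mk _ e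
  have hq : ∀ e e', R.φ.SameCycle e e' → q e' = q e := fun e e' h =>
    Quotient.sound (show R.φ.SameCycle e' e from h.symm)
  have hqne : q d ≠ q d.symm := fun h => hns (Quotient.exact h)
  have hfac : ∀ e x, x ∈ fac R e → (rplus R).Adj (Sum.inl x) (Sum.inr (q e)) := by
    rintro e x ⟨e', h1, h2⟩
    exact ⟨e', hq _ _ h1, h2⟩
  have hc0d : c 0 ∈ fac R d := ⟨d, Equiv.Perm.SameCycle.refl _ _, rfl⟩
  have hc1d : c 1 ∈ fac R d := ⟨R.φ d, (Equiv.Perm.SameCycle.refl _ _).apply_right, R.φ_fst d⟩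
  have hc1s : c 1 ∈ fac R d.symm := ⟨d.symm, Equiv.Perm.SameCycle.refl _ _, rfl⟩
  have hc0s : c 0 ∈ fac R d.symm :=
    ⟨R.φ d.symm, (Equiv.Perm.SameCycle.refl _ _).apply_right, R.φ_fst d.symm⟩
  rw [r₁] at hx₁
  rw [r₂] at hx₂
  -- the arc
  let P : Set V := {x | ∃ t : ℕ, 2 ≤ t ∧ t ≤ (m - 3) + 2 ∧ c (t : ZMod m) = x}
  have hPcon : Con (rst G U) P := arc_FAC hcadj (m - 3)
  have hPc : P ⊆ Set.range c := by
    rintro x ⟨t, -, -, h⟩
    exact ⟨_, h⟩
  have hP0 : c 0 ∉ P := by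
    rintro ⟨t, h1, h2, h3⟩
    exact cast_ne_FAC (m := m) (a := t) (by omega) (by omega) (hinj h3)
  have hP1 : c 1 ∉ P := by
    rintro ⟨t, h1, h2, h3⟩
    refine cast_ne_FAC (m := m) (a := t - 1) (by omega) (by omega) ?_
    rw [Nat.cast_sub (by omega), hinj h3]
    simp
  have h2P : c 2 ∈ P := ⟨2, le_refl _, by omega, by simp⟩
  have hmP : c (-1) ∈ P := by
    refine ⟨m - 1, by omega, by omega, ?_⟩
    rw [Nat.cast_sub (by omega)]
    simp
  have hK : Con (rst G U) (U \ Set.range c) := (hcr _ Set.sdiff_subset).1 hcon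
  have hinl : ∀ a b, (rst G U).Adj a b → (rplus R).Adj (Sum.inl a) (Sum.inl b) := fun a b h => h
  let α := V ⊕ Quotient (Equiv.Perm.SameCycle.setoid R.φ)
  let A : Fin 3 → Set α := ![{Sum.inl (c 0)}, {Sum.inl (c 1)}, Sum.inl '' (U \ Set.range c)]
  let B : Fin 3 → Set α := ![{Sum.inr (q d)}, {Sum.inr (q d.symm)}, Sum.inl '' P]
  have hc01 : c 0 ≠ c 1 := fun h => hne1 (hinj h).symm
  refine (hMNR _ (rplus R) hpl).2 A B ?_ ?_ ?_ ?_ ?_ ?_
  · refine fin3_FAC (con_singleton _ _) (con_singleton _ _) ?_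
    exact con_image_FAC _ hinl hK
  · refine fin3_FAC (con_singleton _ _) (con_singleton _ _) ?_
    exact con_image_FAC _ hinl hPcon
  · refine dis3_FAC ?_ ?_ ?_
    · exact Set.disjoint_singleton.2 (fun h => hc01 (Sum.inl_injective h))
    · refine Set.disjoint_singleton_left.2 ?_
      rintro ⟨x, hx, h⟩
      exact hx.2 ⟨0, (Sum.inl_injective h).symm⟩
    · refine Set.disjoint_singleton_left.2 ?_
      rintro ⟨x, hx, h⟩
      exact hx.2 ⟨1, (Sum.inl_injective h).symm⟩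
  · refine dis3_FAC ?_ ?_ ?_
    · exact Set.disjoint_singleton.2 (fun h => hqne (Sum.inr_injective h))
    · refine Set.disjoint_singleton_left.2 ?_
      rintro ⟨x, -, h⟩
      cases h
    · refine Set.disjoint_singleton_left.2 ?_
      rintro ⟨x, -, h⟩
      cases h
  · refine fin3_FAC ?_ ?_ ?_
    · refine fin3_FAC ?_ ?_ ?_
      · exact Set.disjoint_singleton.2 (fun h => by cases h)
      · exact Set.disjoint_singleton.2 (fun h => by cases h)
      · refine Set.disjoint_singleton_left.2 ?_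
        rintro ⟨x, hx, h⟩
        rw [Sum.inl_injective h] at hx
        exact hP0 hx
    · refine fin3_FAC ?_ ?_ ?_
      · exact Set.disjoint_singleton.2 (fun h => by cases h)
      · exact Set.disjoint_singleton.2 (fun h => by cases h)
      · refine Set.disjoint_singleton_left.2 ?_
        rintro ⟨x, hx, h⟩
        rw [Sum.inl_injective h] at hx
        exact hP1 hx
    · refine fin3_FAC ?_ ?_ ?_
      · refine Set.disjoint_singleton_right.2 ?_
        rintro ⟨x, -, h⟩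
        cases h
      · refine Set.disjoint_singleton_right.2 ?_
        rintro ⟨x, -, h⟩
        cases h
      · refine Set.disjoint_left.2 ?_
        rintro _ ⟨x, hx, rfl⟩ ⟨y, hy, h⟩
        rw [Sum.inl_injective h] at hy
        exact hx.2 (hPc hy)
  · refine fin3_FAC ?_ ?_ ?_
    · refine fin3_FAC ?_ ?_ ?_
      · exact ⟨_, rfl, _, rfl, hfac _ _ hc0d⟩
      · exact ⟨_, rfl, _, rfl, hfac _ _ hc0s⟩
      · refine ⟨_, rfl, Sum.inl (c (-1)), ⟨_, hmP, rfl⟩, ?_⟩
        have := hcadj (-1)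
        rw [neg_add_cancel] at this
        exact hinl _ _ this.symm
    · refine fin3_FAC ?_ ?_ ?_
      · exact ⟨_, rfl, _, rfl, hfac _ _ hc1d⟩
      · exact ⟨_, rfl, _, rfl, hfac _ _ hc1s⟩
      · refine ⟨_, rfl, Sum.inl (c 2), ⟨_, h2P, rfl⟩, ?_⟩
        have := hcadj 1
        rw [one_add_one_eq_two] at this
        exact hinl _ _ this
    · refine fin3_FAC ?_ ?_ ?_
      · exact ⟨Sum.inl x₁, ⟨x₁, ⟨hx₁U, hx₁c⟩, rfl⟩, _, rfl, hfac _ _ hx₁⟩
      · exact ⟨Sum.inl x₂, ⟨x₂, ⟨hx₂U, hx₂c⟩, rfl⟩, _, rfl, hfac _ _ hx₂⟩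
      · obtain ⟨x, hx, hax⟩ := nbr_FAC hc 2 (hdeg _ (hU 2))
        refine ⟨Sum.inl x, ⟨x, hx, rfl⟩, Sum.inl (c 2), ⟨_, h2P, rfl⟩, ?_⟩
        exact hinl _ _ ⟨hax.symm, hx.1, hU 2⟩

end Pool.Agent.Helper86.NK
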