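import Pool.Agent.Helper12.NK.St

/-! # Project NK, module PTR: planarity passes to minors up to isolated vertices -/

set_option autoImplicit false

namespace Pool.Agent.Helper86.NK

open Pool.Agent.Helper12.NK
open Pool.Agent.Helper51.AJ (IsMinor Planar Apex ExMinor Con Tch con_nonempty)

private theorem con_iUnion_PTR {W V : Type} {F : SimpleGraph W} {G : SimpleGraph V} {ψ : W → Set V}
    {S : Set W} (hc : ∀ w ∈ S, Con G (ψ w)) (hadj : ∀ w w', F.Adj w w' → Tch G (ψ w) (ψ w'))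
    (hS : Con F S) : Con G (⋃ w ∈ S, ψ w) := by
  obtain ⟨⟨w0, hw0⟩⟩ := hS.nonempty
  obtain ⟨u, hu⟩ := con_nonempty (hc w0 hw0)
  have hsub : ∀ w : S, ψ w.1 ⊆ ⋃ w ∈ S, ψ w := fun w => Set.subset_biUnion_of_mem w.2
  have hin : ∀ (w : S) (x y : V) (hx : x ∈ ψ w.1) (hy : y ∈ ψ w.1),
      (G.induce (⋃ w ∈ S, ψ w)).Reachable ⟨x, hsub w hx⟩ ⟨y, hsub w hy⟩ := by
    intro w x y hx hy
    exact ((hc w.1 w.2).preconnected ⟨x, hx⟩ ⟨y, hy⟩).map
      (SimpleGraph.induceHomOfLE G (hsub w)).toHom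
  have key : ∀ w : S, Relation.ReflTransGen (F.induce S).Adj ⟨w0, hw0⟩ w → ∀ (v : V) (hv : v ∈ ψ w.1),
      (G.induce (⋃ w ∈ S, ψ w)).Reachable ⟨u, hsub ⟨w0, hw0⟩ hu⟩ ⟨v, hsub w hv⟩ := by
    intro w hw
    induction hw with
    | refl => exact fun v hv => hin ⟨w0, hw0⟩ u v hu hv
    | @tail w1 w2 _ h12 ih =>
      intro v hv
      obtain ⟨x, hx, y, hy, hxy⟩ := hadj w1.1 w2.1 h12
      have h1 := ih x hx
      have h2 : (G.induce (⋃ w ∈ S, ψ w)).Adj ⟨x, hsub w1 hx⟩ ⟨y, hsub w2 hy⟩ := hxy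
      exact (h1.trans h2.reachable).trans (hin w2 y v hy hv)
  refine G.induce_connected_of_patches u (hsub ⟨w0, hw0⟩ hu) ?_
  intro v hv
  refine ⟨_, Set.Subset.rfl, hsub ⟨w0, hw0⟩ hu, hv, ?_⟩
  obtain ⟨w, hw, hvw⟩ := Set.mem_iUnion₂.1 hv
  exact key ⟨w, hw⟩ ((SimpleGraph.reachable_iff_reflTransGen _ _).1
    (hS.preconnected ⟨w0, hw0⟩ ⟨w, hw⟩)) v hvw

/-- a vertex of a connected set with two elements has a neighbour -/
private theorem nbr_PTR {V : Type} {G : SimpleGraph V} {S : Set V} (hS : Con G S) {a b : V}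
    (ha : a ∈ S) (hb : b ∈ S) (hab : a ≠ b) : ∃ c, G.Adj a c := by
  obtain ⟨p⟩ := hS.preconnected ⟨a, ha⟩ ⟨b, hb⟩
  cases p with
  | nil => exact absurd rfl hab
  | cons h _ => exact ⟨_, h⟩

private theorem lift_PTR {ι α β : Type} (P : SimpleGraph ι) (hP : ∀ i, ∃ j, P.Adj i j)
    (H : SimpleGraph α) (K : SimpleGraph β) (f : α → Set β)
    (h1 : ∀ a a', H.Adj a a' → Con K (f a))
    (h2 : ∀ a a' b b', a ≠ b → H.Adj a a' → H.Adj b b' → Disjoint (f a) (f b))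
    (h3 : ∀ a a', H.Adj a a' → Tch K (f a) (f a')) (hm : IsMinor P H) : IsMinor P K := by
  obtain ⟨φ, m1, m2, m3⟩ := hm
  have hnb : ∀ w, ∀ a ∈ φ w, ∃ c, H.Adj a c := by
    intro w a ha
    by_cases h : ∃ b ∈ φ w, a ≠ b
    · obtain ⟨b, hb, hab⟩ := h
      exact nbr_PTR (m1 w) ha hb hab
    · push Not at h
      obtain ⟨w', hw'⟩ := hP w
      obtain ⟨x, hx, y, _, hxy⟩ := m3 w w' hw'
      rw [← h x hx] at hxy
      exact ⟨y, hxy⟩
  refine ⟨fun w => ⋃ a ∈ φ w, f a, fun w => ?_, ?_, ?_⟩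
  · refine con_iUnion_PTR (fun a ha => ?_) h3 (m1 w)
    obtain ⟨c, hc⟩ := hnb w a ha
    exact h1 a c hc
  · intro w w' hw
    rw [Set.disjoint_left]
    intro z hz hz'
    obtain ⟨a, ha, hza⟩ := Set.mem_iUnion₂.1 hz
    obtain ⟨a', ha', hza'⟩ := Set.mem_iUnion₂.1 hz'
    have hne : a ≠ a' := by
      rintro rfl
      exact Set.disjoint_left.1 (m2 w w' hw) ha ha'
    obtain ⟨c, hc⟩ := hnb w a ha
    obtain ⟨c', hc'⟩ := hnb w' a' ha'
    exact Set.disjoint_left.1 (h2 a c a' c' hne hc hc') hza hza'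
  · intro w w' hw
    obtain ⟨a, ha, a', ha', haa⟩ := m3 w w' hw
    obtain ⟨x, hx, y, hy, hxy⟩ := h3 a a' haa
    exact ⟨x, Set.mem_iUnion₂.2 ⟨a, ha, hx⟩, y, Set.mem_iUnion₂.2 ⟨a', ha', hy⟩, hxy⟩

theorem hPTR : StPTR := by
  intro α β H K f h1 h2 h3 hK
  refine ⟨fun h => hK.1 (lift_PTR _ ?_ H K f h1 h2 h3 h),
    fun h => hK.2 (lift_PTR _ ?_ H K f h1 h2 h3 h)⟩
  · intro i
    refine ⟨i + 1, ?_⟩
    rw [SimpleGraph.top_adj]
    revert i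
    decide
  · intro i
    rcases i with i | i
    · exact ⟨Sum.inr 0, by simp⟩
    · exact ⟨Sum.inl 0, by simp⟩

end Pool.Agent.Helper86.NK
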